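import Mathlib

set_option autoImplicit false

namespace Pool.Agent.H.MP_e50cbd_co

/-- sums of at most `k` elements of `S` and their negatives -/
inductive Sm (S : Set ℂ) : ℕ → ℂ → Prop
  | zero (k : ℕ) : Sm S k 0
  | add {k : ℕ} {x s : ℂ} : s ∈ S → Sm S k x → Sm S (k + 1) (x + s)
  | sub {k : ℕ} {x s : ℂ} : s ∈ S → Sm S k x → Sm S (k + 1) (x - s)

variable {S S' : Set ℂ}

theorem Sm.mono {k l : ℕ} {x : ℂ} (h : Sm S k x) (hl : k ≤ l) : Sm S l x := by
  induction h generalizing l with
  | zero => exact .zero _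
  | add hs _ ih =>
    obtain ⟨l, rfl⟩ : ∃ j, l = j + 1 := ⟨l - 1, by omega⟩
    exact .add hs (ih (by omega))
  | sub hs _ ih =>
    obtain ⟨l, rfl⟩ : ∃ j, l = j + 1 := ⟨l - 1, by omega⟩
    exact .sub hs (ih (by omega))

theorem Sm.one {s : ℂ} (h : s ∈ S) : Sm S 1 s := by simpa using Sm.add h (.zero 0)

theorem Sm.plus {k l : ℕ} {x y : ℂ} (h : Sm S k x) (h' : Sm S l y) : Sm S (k + l) (x + y) := by
  induction h' with
  | zero => simpa using h.mono (by omega)
  | add hs _ ih => rw [← add_assoc, ← add_assoc]; exact .add hs ih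
  | sub hs _ ih => rw [← add_assoc, ← add_sub_assoc]; exact .sub hs ih

theorem Sm.neg {k : ℕ} {x : ℂ} (h : Sm S k x) : Sm S k (-x) := by
  induction h with
  | zero => simpa using Sm.zero _
  | add hs _ ih => rw [neg_add']; exact .sub hs ih
  | sub hs _ ih => rw [neg_sub']; rw [sub_neg_eq_add]; exact .add hs ih

theorem Sm.minus {k l : ℕ} {x y : ℂ} (h : Sm S k x) (h' : Sm S l y) : Sm S (k + l) (x - y) := by
  rw [sub_eq_add_neg]; exact h.plus h'.neg

theorem Sm.mul {k l : ℕ} {x y : ℂ} (h : Sm S k x) (h' : ∀ s ∈ S, Sm S' l (s * y)) :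
    Sm S' (k * l) (x * y) := by
  induction h with
  | zero => simpa using Sm.zero _
  | add hs _ ih => rw [add_mul, add_mul, one_mul]; exact ih.plus (h' _ hs)
  | sub hs _ ih => rw [add_mul, sub_mul, one_mul]; exact ih.minus (h' _ hs)

theorem Sm.bind {k l : ℕ} {x : ℂ} (h : Sm S k x) (h' : ∀ s ∈ S, Sm S' l s) : Sm S' (k * l) x := by
  simpa using h.mul (y := 1) (by simpa using h')

theorem Sm.sub' {k : ℕ} {x : ℂ} (h : Sm S k x) (h' : S ⊆ S') : Sm S' k x := by
  simpa using h.bind fun s hs => Sm.one (h' hs)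

theorem Sm.sum {l : ℕ} (f : ℕ → ℂ) (n : ℕ) (h : ∀ i < n, Sm S l (f i)) :
    Sm S (n * l) (∑ i ∈ Finset.range n, f i) := by
  induction n with
  | zero => simpa using Sm.zero _
  | succ n ih =>
    rw [Finset.sum_range_succ, add_mul, one_mul]
    exact (ih fun i hi => h i (by omega)).plus (h n (by omega))

theorem Sm.nat {l : ℕ} {x : ℂ} (h : Sm S l x) (n : ℕ) : Sm S (n * l) (n * x) := by
  simpa using Sm.sum (fun _ => x) n fun _ _ => h

variable {ι : Type} [DecidableEq ι]

/-- `q` is obtained from `p` by at most `k` jumps -/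
inductive Rch : ℕ → (ι → ℂ) → (ι → ℂ) → Prop
  | refl (k : ℕ) (p : ι → ℂ) : Rch k p p
  | step {k : ℕ} {p q : ι → ℂ} (i j : ι) : i ≠ j →
      Rch k (Function.update p i (2 * p j - p i)) q → Rch (k + 1) p q

theorem Rch.mono {k l : ℕ} {p q : ι → ℂ} (h : Rch k p q) (hl : k ≤ l) : Rch l p q := by
  induction h generalizing l with
  | refl => exact .refl _ _
  | step i j hij _ ih =>
    obtain ⟨l, rfl⟩ : ∃ j, l = j + 1 := ⟨l - 1, by omega⟩
    exact .step i j hij (ih (by omega))

theorem Rch.trans {k l : ℕ} {p q r : ι → ℂ} (h : Rch k p q) (h' : Rch l q r) :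
    Rch (k + l) p r := by
  induction h with
  | refl => exact h'.mono (by omega)
  | step i j hij _ ih => rw [add_right_comm]; exact .step i j hij (ih h')

theorem Rch.symm {k : ℕ} {p q : ι → ℂ} (h : Rch k p q) : Rch k q p := by
  induction h with
  | refl => exact .refl _ _
  | @step k p q i j hij _ ih =>
    refine ih.trans (.step i j hij ?_)
    rw [Function.update_idem, Function.update_self, Function.update_of_ne hij.symm,
      sub_sub_cancel, Function.update_eq_self]
    exact .refl _ _

theorem Rch.congr {k : ℕ} {p q q' : ι → ℂ} (h : Rch k p q) (e : ∀ a, q a = q' a) : Rch k p q' :=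
  funext e ▸ h

theorem Rch.map {k : ℕ} {p q : ι → ℂ} (h : Rch k p q) (c w : ℂ) :
    Rch k (fun a => c + w * p a) (fun a => c + w * q a) := by
  induction h with
  | refl => exact .refl _ _
  | @step k p q i j hij _ ih =>
    refine .step i j hij ?_
    convert ih using 1
    funext a
    simp only [Function.update_apply]
    split_ifs
    · ring
    · rfl

/-- differences of positions -/
def DD (p : ι → ℂ) (J : Set ι) : Set ℂ := {s | ∃ a ∈ J, ∃ b ∈ J, s = p a - p b}

theorem shift1 (p : ι → ℂ) {i a b : ι} (ha : a ≠ i) (hb : b ≠ i) :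
    Rch 2 p (Function.update p i (p i + 2 * (p a - p b))) := by
  refine .step i b hb.symm (.step i a ha.symm ?_)
  rw [Function.update_idem, Function.update_self, Function.update_of_ne ha,
    show 2 * p a - (2 * p b - p i) = p i + 2 * (p a - p b) by ring]
  exact .refl _ _

theorem shift (p : ι → ℂ) {i : ι} {J : Set ι} (hi : i ∉ J) {k : ℕ} {x : ℂ}
    (h : Sm (DD p J) k x) : Rch (2 * k) p (Function.update p i (p i + 2 * x)) := by
  have hJ : ∀ a ∈ J, a ≠ i := fun a ha e => hi (e ▸ ha)
  induction h with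
  | zero => simpa using Rch.refl _ _
  | add hs _ ih =>
    obtain ⟨a, ha, b, hb, rfl⟩ := hs
    convert ih.trans (shift1 _ (hJ a ha) (hJ b hb)) using 1
    · rfl
    rw [Function.update_idem, Function.update_self, Function.update_of_ne (hJ a ha),
      Function.update_of_ne (hJ b hb), mul_add, add_assoc]
  | sub hs _ ih =>
    obtain ⟨a, ha, b, hb, rfl⟩ := hs
    convert ih.trans (shift1 _ (hJ b hb) (hJ a ha)) using 1
    · rfl
    rw [Function.update_idem, Function.update_self, Function.update_of_ne (hJ a ha),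
      Function.update_of_ne (hJ b hb)]
    congr 1; ring

theorem DD_congr {p q : ι → ℂ} {J : Set ι} (h : ∀ a ∈ J, p a = q a) : DD p J = DD q J := by
  ext s
  exact ⟨fun ⟨a, ha, b, hb, e⟩ => ⟨a, ha, b, hb, by rw [e, h a ha, h b hb]⟩,
    fun ⟨a, ha, b, hb, e⟩ => ⟨a, ha, b, hb, by rw [e, h a ha, h b hb]⟩⟩

theorem tri_aux (p : ι → ℂ) (r : ι → ℕ) (x : ι → ℂ) (K : ℕ)
    (h : ∀ a, Sm (DD p {b | r b < r a}) K (x a)) (s : Finset ι) :
    Rch (2 * K * s.card) p fun a => if a ∈ s then p a + 2 * x a else p a := by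
  induction s using Finset.induction_on_min_value r with
  | empty => simpa using Rch.refl _ _
  | insert a s ha hm ih =>
    rw [Finset.card_insert_of_notMem ha, mul_add, mul_one]
    refine (ih.trans (shift _ (i := a) (J := {b | r b < r a}) (by simp) (x := x a) ?_)).congr
      fun b => ?_
    · rw [DD_congr (q := p) (J := {b | r b < r a})
        (p := fun a => if a ∈ s then p a + 2 * x a else p a)
        fun b hb => if_neg fun hs => (hm b hs).not_gt hb]
      exact h a
    · rw [Function.update_apply]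
      by_cases e : b = a
      · simp [e, ha]
      · simp [e]

theorem tri [Fintype ι] (p : ι → ℂ) (r : ι → ℕ) (x : ι → ℂ) (K : ℕ)
    (h : ∀ a, Sm (DD p {b | r b < r a}) K (x a)) :
    Rch (2 * K * Fintype.card ι) p fun a => p a + 2 * x a := by
  simpa using tri_aux p r x K h Finset.univ

theorem phase [Fintype ι] (p : ι → ℂ) (J : Set ι) (x : ι → ℂ) (K : ℕ) (h0 : ∀ a ∈ J, x a = 0)
    (h : ∀ a ∉ J, Sm (DD p J) K (x a)) :
    Rch (2 * K * Fintype.card ι) p fun a => p a + 2 * x a := by
  classical
  refine tri p (fun a => if a ∈ J then 0 else 1) x K fun a => ?_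
  by_cases ha : a ∈ J
  · rw [h0 a ha]; exact .zero _
  · convert h a ha using 2
    ext b
    by_cases hb : b ∈ J <;> simp [ha, hb]

theorem pair (p : ι → ℂ) {o k l : ι} (hk : o ≠ k) (hl : o ≠ l) (hkl : k ≠ l) (ho : p o = 0)
    (c : ℕ) (e : ℂ) (he : e = 1 ∨ e = -1) :
    Rch (2 * c + 2) p (Function.update (Function.update p k (p k + 2 * (e * (p l - c * p k)))) l
      (p l + 2 * (c * (e * (p l - c * p k))))) := by
  induction c using Nat.twoStepInduction generalizing p with
  | zero =>
    rcases he with rfl | rfl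
    · refine (shift1 p hkl.symm hk).congr fun a => ?_
      simp only [Function.update_apply, ho]
      split_ifs <;> simp_all
    · refine (shift1 p hk hkl.symm).congr fun a => ?_
      simp only [Function.update_apply, ho]
      split_ifs <;> simp_all
  | one =>
    rcases he with rfl | rfl
    · refine (Rch.step k l hkl (.step l k hkl.symm (.refl 2 _))).congr fun a => ?_
      simp only [Function.update_apply, if_neg hkl.symm, if_true]
      split_ifs <;> first | ring1 | rfl
    · refine (Rch.step l k hkl.symm (.step k l hkl (.refl 2 _))).congr fun a => ?_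
      simp only [Function.update_apply, if_neg hkl, if_true]
      split_ifs <;> first | ring1 | rfl | simp_all
  | more c ih _ =>
    have a1 := shift1 p hl hkl
    have a2 := ih (Function.update p l (p l + 2 * (p o - p k)))
      (by rw [Function.update_of_ne hl, ho])
    refine (((a1.trans a2).trans (shift1 _ hkl hl)).mono (by omega)).congr fun a => ?_
    simp only [Function.update_apply, if_neg hkl, if_neg hk, if_neg hl, if_true, ho]
    push_cast
    split_ifs <;> first | ring1 | rfl

theorem rank1 [Fintype ι] (x : ι → ℕ) {o k : ι} (hx : x k = 1) (hxo : x o = 0) (B : ℕ)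
    (hB : ∀ a, x a ≤ B) (p : ι → ℂ) (ho : p o = 0) (l : ι) (e : ℂ) (he : e = 1 ∨ e = -1) :
    Rch (2 * (B * (B + 1)) * Fintype.card ι + (2 * B + 2)) p
      fun a => p a + 2 * (x a * (e * (p l - x l * p k))) := by
  have hk : o ≠ k := fun h => by rw [h, hx] at hxo; cases hxo
  by_cases hl : o = l
  · subst hl; simpa [ho, hxo] using Rch.refl _ _
  by_cases hkl : k = l
  · subst hkl; simpa [hx] using Rch.refl _ _
  have d : Sm (DD p {o, k, l}) (B + 1) (e * (p l - x l * p k)) := by
    have := (Sm.one (S := DD p {o, k, l}) ⟨l, by simp, o, by simp, rfl⟩).minus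
      ((Sm.one (S := DD p {o, k, l}) ⟨k, by simp, o, by simp, rfl⟩).nat (x l))
    rw [ho, sub_zero, sub_zero] at this
    have := this.mono (l := B + 1) (by have := hB l; omega)
    rcases he with rfl | rfl
    · rwa [one_mul]
    · rw [neg_one_mul]; exact this.neg
  have a1 := phase p {o, k, l} (fun a => if a ∈ ({o, k, l} : Set ι) then 0 else
    x a * (e * (p l - x l * p k))) (B * (B + 1)) (fun a ha => if_pos ha) fun a ha => by
      rw [if_neg ha]
      exact (d.nat (x a)).mono (Nat.mul_le_mul_right _ (hB a))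
  refine (a1.trans ((pair _ hk hl hkl (by simp [ho]) (x l) e he).mono
    (by have := hB l; omega))).congr fun a => ?_
  simp only [Function.update_apply, Set.mem_insert_iff, Set.mem_singleton_iff, true_or, or_true,
    if_true, mul_zero, add_zero]
  split_ifs with h1 h2 h3
  · rw [h1]
  · rw [h2, hx]; simp
  · obtain rfl : a = o := by tauto
    simp [hxo]
  · rfl

theorem rank [Fintype ι] (x : ι → ℕ) {o k : ι} (hx : x k = 1) (hxo : x o = 0) (B : ℕ)
    (hB : ∀ a, x a ≤ B) (p : ι → ℂ) (ho : p o = 0) {K : ℕ} {y : ℂ}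
    (h : Sm (Set.range fun l => p l - x l * p k) K y) :
    Rch (K * (2 * (B * (B + 1)) * Fintype.card ι + (2 * B + 2))) p
      fun a => p a + 2 * (x a * y) := by
  induction h with
  | zero => simpa using Rch.refl _ _
  | add hs _ ih =>
    obtain ⟨l, rfl⟩ := hs
    rw [Nat.add_one_mul]
    refine (ih.trans (rank1 x hx hxo B hB _ (by simp [ho, hxo]) l 1 (Or.inl rfl))).congr
      fun a => ?_
    rw [hx]; push_cast; ring
  | sub hs _ ih =>
    obtain ⟨l, rfl⟩ := hs
    rw [Nat.add_one_mul]
    refine (ih.trans (rank1 x hx hxo B hB _ (by simp [ho, hxo]) l (-1) (Or.inr rfl))).congr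
      fun a => ?_
    rw [hx]; push_cast; ring

end Pool.Agent.H.MP_e50cbd_co
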