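import Mathlib
import Pool.Agent.H.MP_e50cbd_co.A

set_option autoImplicit false

namespace Pool.Agent.H.MP_e50cbd_co

open Finset

theorem Sm.cast {S : Set ℂ} {k : ℕ} {x y : ℂ} (h : Sm S k x) (e : y = x) : Sm S k y := e ▸ h

theorem Sm.rg {ι : Type} (g : ι → ℂ) (l : ι) : Sm (Set.range g) 1 (g l) := .one ⟨l, rfl⟩

theorem Sm.dd {ι : Type} (p : ι → ℂ) {J : Set ι} (a b : ι) (ha : a ∈ J) (hb : b ∈ J) :
    Sm (DD p J) 1 (p a - p b) := .one ⟨a, ha, b, hb, rfl⟩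

theorem geo {y c κ : ℂ} (h : κ * (y - 1) = c * (y + 1)) (n : ℕ) :
    c * (y ^ n - 1) + 2 * ∑ l ∈ range n, c * (y ^ l - 1) = κ * (y ^ n - 1) - 2 * n * c := by
  induction n with
  | zero => simp
  | succ n ih =>
    rw [sum_range_succ, pow_succ]; push_cast
    linear_combination ih - y ^ n * h

theorem tri_geo {N : ℕ} (r : Fin N → ℕ) (e : ℕ → Fin N) (hr : ∀ a, r a < N)
    (he : ∀ l < N, r (e l) = l) {y c κ : ℂ} (h : κ * (y - 1) = c * (y + 1)) :
    Rch (2 * N * N) (fun a => c * (y ^ r a - 1)) fun a => κ * (y ^ r a - 1) - 2 * r a * c := by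
  have := tri (fun a => c * (y ^ r a - 1)) r (fun a => ∑ l ∈ range (r a), c * (y ^ l - 1)) N
    fun a => by
      have := hr a
      refine Sm.mono (Sm.sum (l := 1) _ _ fun l hl => Sm.cast (Sm.dd _ (e l) (e 0) ?_ ?_) ?_)
        (by omega)
      · show r (e l) < r a
        rwa [he l (by omega)]
      · show r (e 0) < r a
        rw [he 0 (by omega)]; omega
      · rw [he l (by omega), he 0 (by omega)]; simp
  rw [Fintype.card_fin] at this
  exact this.congr fun a => geo h _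

theorem odd_case {h : ℕ} (h1 : 1 ≤ h) {w : ℂ} (hw : w ^ (2 * h + 1) = 1) (h2 : w ^ 2 - 1 ≠ 0)
    (h3 : w ^ 2 + 1 ≠ 0) :
    Rch (100 * (2 * h + 1) ^ 4) (fun a : Fin (2 * h + 1) => (w ^ 2 + 1) * (w ^ (a : ℕ) - 1))
      fun a => (w + 1) ^ 2 * (w ^ (a : ℕ) - 1) := by
  have h4 : w - 1 ≠ 0 := fun e => h2 (by linear_combination (w + 1) * e)
  obtain ⟨κ, hκ⟩ : ∃ κ, κ * (w - 1) = (w ^ 2 + 1) * (w + 1) :=
    ⟨_, div_mul_cancel₀ _ h4⟩
  have hκ2 : κ * (w ^ 2 - 1) = (w + 1) ^ 2 * (w ^ 2 + 1) := by linear_combination (w + 1) * hκ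
  let f : ℕ → Fin (2 * h + 1) := fun l => ⟨l % (2 * h + 1), Nat.mod_lt _ (by omega)⟩
  have hf : ∀ l < 2 * h + 1, (f l : ℕ) = l := fun l hl => Nat.mod_eq_of_lt hl
  let ii : Fin (2 * h + 1) → ℕ := fun a => a / 2 + (h + 1) * (a % 2)
  have ii_lt : ∀ a, ii a < 2 * h + 1 := fun a => by
    have := a.2
    rcases Nat.mod_two_eq_zero_or_one a with e | e <;> simp only [ii, e] <;> omega
  have ii_f : ∀ l < 2 * h + 1, ii (f (2 * l)) = l := fun l hl => by
    rcases Nat.lt_or_ge (2 * l) (2 * h + 1) with c | c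
    · simp only [ii, hf _ c]; rw [show 2 * l % 2 = 0 by omega]; omega
    · have : (f (2 * l) : ℕ) = 2 * l - (2 * h + 1) := by
        simp only [f]; rw [Nat.mod_eq_sub_mod c, Nat.mod_eq_of_lt (by omega)]
      simp only [ii, this]; rw [show (2 * l - (2 * h + 1)) % 2 = 1 by omega]; omega
  have ii_pow : ∀ a, (w ^ 2) ^ ii a = w ^ (a : ℕ) := fun a => by
    rw [← pow_mul, show 2 * ii a = a + (2 * h + 1) * (a % 2) by
      rcases Nat.mod_two_eq_zero_or_one a with e | e <;> simp only [ii, e] <;> omega,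
      pow_add, pow_mul, hw, one_pow, mul_one]
  have f1 : (f 1 : ℕ) = 1 := hf 1 (by omega)
  have f2 : (f 2 : ℕ) = 2 := hf 2 (by omega)
  have f0 : (f 0 : ℕ) = 0 := hf 0 (by omega)
  have s1 := tri_geo (fun a : Fin (2 * h + 1) => (a : ℕ)) f (fun a => a.2) hf hκ
  have s2 := rank (fun a : Fin (2 * h + 1) => (a + 1) / 2) (o := f 0) (k := f 1) (by rw [f1])
    (by rw [f0]) (2 * h + 1) (fun a => by have := a.2; omega)
    (fun a => κ * (w ^ (a : ℕ) - 1) - 2 * (a : ℕ) * (w ^ 2 + 1)) (by simp [f0])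
    (Sm.neg (Sm.rg _ (f 2)))
  simp only [f1, f2] at s2
  set l1 := -(κ * (w ^ 2 - 1) - 2 * (2 : ℕ) * (w ^ 2 + 1) -
    ((2 + 1) / 2 : ℕ) * (κ * (w ^ 1 - 1) - 2 * (1 : ℕ) * (w ^ 2 + 1))) with hl1
  have e1 : ∑ l ∈ range h, κ * (w ^ (2 * l + 2) - w ^ (2 * l + 1)) = -(w ^ 2 + 1) := by
    apply mul_right_cancel₀ h2
    have := geom_sum_mul (w ^ 2) h
    rw [show ∑ l ∈ range h, κ * (w ^ (2 * l + 2) - w ^ (2 * l + 1))
      = κ * (w - 1) * w * ∑ l ∈ range h, (w ^ 2) ^ l by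
        rw [mul_sum]; exact sum_congr rfl fun l _ => by ring, mul_assoc, this, hκ]
    linear_combination (w ^ 2 + 1) * (w + 1) * hw
  have s3 := rank (fun a : Fin (2 * h + 1) => a % 2) (o := f 0) (k := f 1) (by rw [f1])
    (by rw [f0]) (2 * h + 1) (fun a => by omega)
    (fun a => κ * (w ^ (a : ℕ) - 1) - 2 * (a : ℕ) * (w ^ 2 + 1) + 2 * (((a + 1) / 2 : ℕ) * l1))
    (by simp [f0]) (K := h * 3) (y := h * l1 - (2 * h + 1) * (w ^ 2 + 1)) (by
      refine Sm.cast (Sm.sum _ h fun l hl => Sm.minus (Sm.minus (Sm.rg _ (f (2 * l + 2)))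
        (Sm.rg _ (f (2 * l + 1)))) (Sm.rg _ (f 2))) ?_
      rw [sum_congr rfl (g := fun l => κ * (w ^ (2 * l + 2) - w ^ (2 * l + 1))
        + (l1 - 2 * (w ^ 2 + 1))) fun l hl => by
          have := mem_range.1 hl
          simp only [f1, f2, hf _ (by omega : 2 * l + 2 < 2 * h + 1),
            hf _ (by omega : 2 * l + 1 < 2 * h + 1)]
          rw [show (2 * l + 2 + 1) / 2 = l + 1 by omega, show (2 * l + 1 + 1) / 2 = l + 1 by omega,
            show (2 * l + 2) % 2 = 0 by omega, show (2 * l + 1) % 2 = 1 by omega]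
          norm_num at hl1 ⊢
          linear_combination -hl1, sum_add_distrib, e1, sum_const, card_range, nsmul_eq_mul]
      ring)
  have s4 := tri_geo ii (fun l => f (2 * l)) ii_lt ii_f hκ2
  simp only [ii_pow] at s4
  have e2 : ∑ l ∈ range h, κ * ((w ^ 2) ^ (2 * l + 2) - (w ^ 2) ^ (2 * l + 1)) = -(w + 1) ^ 2 := by
    apply mul_right_cancel₀ (mul_ne_zero h2 h3)
    have := geom_sum_mul (w ^ 4) h
    rw [show ∑ l ∈ range h, κ * ((w ^ 2) ^ (2 * l + 2) - (w ^ 2) ^ (2 * l + 1))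
      = κ * (w ^ 2 - 1) * w ^ 2 * ∑ l ∈ range h, (w ^ 4) ^ l by
        rw [mul_sum]; exact sum_congr rfl fun l _ => by ring, mul_assoc,
      show (w ^ 2 - 1) * (w ^ 2 + 1) = w ^ 4 - 1 by ring, this, hκ2]
    linear_combination (w + 1) ^ 2 * (w ^ 2 + 1) * (w ^ (2 * h + 1) + 1) * hw
  have i2 : ii (f 2) = 1 := ii_f 1 (by omega)
  have i1 : ii (f 1) = h + 1 := by simp [ii, f1]
  have s5 := rank ii (o := f 0) (k := f 2) i2 (ii_f 0 (by omega)) (2 * h + 1)
    (fun a => (ii_lt a).le)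
    (fun a => κ * (w ^ (a : ℕ) - 1) - 2 * (ii a : ℕ) * (w + 1) ^ 2) (by simp [f0, ii])
    (K := 1 + h * 2) (y := -(2 * (w ^ 2 + 1) - (w + 1) ^ 2 - l1)) (by
      refine Sm.cast (Sm.minus (Sm.rg _ (f 1)) (Sm.sum _ h fun l hl =>
        Sm.minus (Sm.rg _ (f (2 * (2 * l + 2)))) (Sm.rg _ (f (2 * (2 * l + 1)))))) ?_
      rw [sum_congr rfl (g := fun l => κ * ((w ^ 2) ^ (2 * l + 2) - (w ^ 2) ^ (2 * l + 1))
        - κ * (w ^ 2 - 1)) fun l hl => by
          have := mem_range.1 hl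
          simp only [← ii_pow, i2, ii_f _ (by omega : 2 * l + 2 < 2 * h + 1),
            ii_f _ (by omega : 2 * l + 1 < 2 * h + 1)]
          push_cast; ring, sum_sub_distrib, e2, sum_const, card_range, nsmul_eq_mul]
      simp only [f1, f2, i1, i2]
      norm_num at hl1 ⊢
      linear_combination hl1)
  refine ((((s1.trans s2).trans s3).trans ((s5.congr fun a => ?_).symm.trans s4.symm)).mono ?_)
  · have ea : (a : ℕ) = 2 * (a / 2) + a % 2 := (Nat.div_add_mod a 2).symm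
    have eb : ((a : ℕ) + 1) / 2 = a / 2 + a % 2 := by omega
    simp only [ii]
    rw [eb]
    generalize (a : ℕ) / 2 = j at *
    generalize (a : ℕ) % 2 = t at *
    rw [ea]; push_cast; ring
  · rw [Fintype.card_fin]
    obtain ⟨n, hn⟩ : ∃ n, n = 2 * h + 1 := ⟨_, rfl⟩
    rw [← hn]
    have a : 2 * (n * (n + 1)) * n + (2 * n + 2) ≤ 8 * n ^ 3 := by
      have : 1 ≤ n := by omega
      nlinarith [Nat.pow_le_pow_right this (show 2 ≤ 3 by omega),
        Nat.pow_le_pow_right this (show 1 ≤ 3 by omega), Nat.one_le_pow 3 n this]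
    generalize 2 * (n * (n + 1)) * n + (2 * n + 2) = c at *
    have b : 2 * n * n ≤ 2 * n ^ 4 := by
      have : 1 ≤ n := by omega
      nlinarith [Nat.pow_le_pow_right this (show 2 ≤ 4 by omega)]
    have d : (5 * h + 2) * c ≤ (3 * n) * (8 * n ^ 3) := Nat.mul_le_mul (by omega) a
    nlinarith

end Pool.Agent.H.MP_e50cbd_co
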