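import Mathlib
import Pool.Agent.H.MP_e50cbd_co.B

set_option autoImplicit false

namespace Pool.Agent.H.MP_e50cbd_co

open Finset

/-- powers -/
def UU (z : ℂ) : Set ℂ := Set.range fun j : ℕ => z ^ j

variable {z : ℂ}

theorem U_pow (j : ℕ) : Sm (UU z) 1 (z ^ j) := Sm.rg _ j

theorem Sm.prod {k l : ℕ} {x y : ℂ} (h : Sm (UU z) k x) (h' : Sm (UU z) l y) :
    Sm (UU z) (k * l) (x * y) := by
  refine h.mul ?_
  rintro _ ⟨i, rfl⟩
  rw [mul_comm]
  simpa using h'.mul (l := 1) (by rintro _ ⟨j, rfl⟩; simp only; rw [← pow_add]; exact U_pow _)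

theorem U_geom {y : ℂ} (hy : Sm (UU z) 1 y) (n : ℕ) : Sm (UU z) n (∑ l ∈ range n, y ^ l) := by
  have : ∀ l : ℕ, Sm (UU z) 1 (y ^ l) := fun l => by
    induction l with
    | zero => simpa using U_pow (z := z) 0
    | succ l ih => rw [pow_succ]; exact ih.prod hy
  simpa using Sm.sum _ n fun l _ => this l

theorem per {m : ℕ} (hm : 0 < m) (hz : z ^ m = -1) {S : Set ℂ} {L s : ℕ} {y : ℂ}
    (h : ∀ j < m, Sm S L (z ^ (j + s) * y)) : ∀ u ∈ UU z, Sm S L (u * y) := by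
  have key : ∀ t, Sm S L (z ^ (t + s) * y) := fun t => by
    induction t using Nat.strong_induction_on with
    | _ t ih =>
      rcases Nat.lt_or_ge t m with c | c
      · exact h t c
      · refine (ih (t - m) (by omega)).neg.cast ?_
        rw [show t + s = (t - m + s) + m by omega, pow_add _ _ m, hz]; ring
  rintro _ ⟨j, rfl⟩
  refine (key (j + (2 * m - 1) * s)).cast ?_
  rw [show j + (2 * m - 1) * s + s = j + m * (2 * s) by
    obtain ⟨m, rfl⟩ : ∃ k, m = k + 1 := ⟨m - 1, by omega⟩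
    rw [show 2 * (m + 1) - 1 = 2 * m + 1 by omega]; ring, pow_add, pow_mul, hz, pow_mul]
  simp

theorem even_case {m : ℕ} (hm : 1 ≤ m) (hz : z ^ m = -1) {β γ : ℂ} {K : ℕ}
    (hβ : Sm (UU z) K β) (hγ : Sm (UU z) K γ) (e : β = γ * (1 + 2 * β))
    (H : Sm (DD (fun a : Fin (2 * m) => if (a : ℕ) ≤ m then z ^ (a : ℕ) - 1
      else (1 + 2 * β) * (z ^ (a : ℕ) - 1)) {b | (b : ℕ) ≠ m}) (2 * m) (z ^ (m - 1) * (z - 1))) :
    Rch (6 * K * (2 * m) ^ 3) (fun a : Fin (2 * m) => z ^ (a : ℕ) - 1)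
      fun a => (1 + 2 * β) * (z ^ (a : ℕ) - 1) := by
  have G : ∀ {δ : ℂ} (_ : Sm (UU z) K δ) (a : Fin (2 * m)) {S : Set ℂ} {y : ℂ},
      (∀ u ∈ UU z, Sm S (2 * m) (u * (y * (z - 1)))) →
      Sm S (K * (2 * m) * (2 * m)) (δ * y * (z ^ (a : ℕ) - 1)) := fun {δ} hδ a S y h => by
    refine ((hδ.prod ((U_geom (by simpa using U_pow (z := z) 1) a).mono a.2.le)).mul h).cast ?_
    rw [← geom_sum_mul]; ring
  have s1 := phase (fun a : Fin (2 * m) => z ^ (a : ℕ) - 1) {b | (b : ℕ) ≤ m}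
    (fun a => if (a : ℕ) ≤ m then 0 else β * 1 * (z ^ (a : ℕ) - 1)) (K * (2 * m) * (2 * m))
    (fun a ha => if_pos ha)
    fun a ha => by
      refine Sm.cast ?_ (if_neg ha)
      refine G hβ a (per hm hz (s := 0) fun j hj => ?_)
      by_cases c : j + 1 < 2 * m
      · refine Sm.cast (Sm.mono (Sm.dd _ ⟨j + 1, c⟩ ⟨j, by omega⟩ (show j + 1 ≤ m by omega)
          (show j ≤ m by omega)) (by omega)) ?_
        simp only; ring
      · exact (ha (show (a : ℕ) ≤ m by have := a.2; omega)).elim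
  have s2 := phase (fun a : Fin (2 * m) => if (a : ℕ) ≤ m then z ^ (a : ℕ) - 1
      else (1 + 2 * β) * (z ^ (a : ℕ) - 1)) {b | (b : ℕ) ≠ m}
    (fun a => if (a : ℕ) ≠ m then 0 else β * 1 * (z ^ (a : ℕ) - 1)) (K * (2 * m) * (2 * m))
    (fun a ha => if_pos ha)
    fun a ha => by
      refine Sm.cast ?_ (if_neg ha)
      refine G hβ a (per hm hz (s := 0) fun j hj => ?_)
      by_cases c : j + 1 < m
      · refine Sm.cast (Sm.mono (Sm.dd _ ⟨j + 1, by omega⟩ ⟨j, by omega⟩ (show j + 1 ≠ m by omega)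
          (show j ≠ m by omega)) (by omega)) ?_
        simp only
        rw [if_pos c.le, if_pos hj.le]; ring
      · rw [show j + 0 = m - 1 by omega, one_mul]; exact H
  have s3 := phase (fun a : Fin (2 * m) => if (a : ℕ) < m then z ^ (a : ℕ) - 1
      else (1 + 2 * β) * (z ^ (a : ℕ) - 1)) {b | (b : ℕ) = 0 ∨ m ≤ (b : ℕ)}
    (fun a => if (a : ℕ) = 0 ∨ m ≤ (a : ℕ) then 0 else γ * (1 + 2 * β) * (z ^ (a : ℕ) - 1))
    (K * (2 * m) * (2 * m)) (fun a ha => if_pos ha) fun a ha => by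
      refine Sm.cast ?_ (if_neg ha)
      refine G hγ a (per hm hz (s := m) fun j hj => ?_)
      by_cases c : j + 1 < m
      · refine Sm.cast (Sm.mono (Sm.dd _ ⟨j + m + 1, by omega⟩ ⟨j + m, by omega⟩
          (Or.inr (show m ≤ j + m + 1 by omega)) (Or.inr (show m ≤ j + m by omega)))
          (by omega)) ?_
        simp only
        rw [if_neg (by omega), if_neg (by omega)]; ring
      · refine Sm.cast (Sm.mono (Sm.dd _ ⟨0, by omega⟩ ⟨j + m, by omega⟩ (Or.inl rfl)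
          (Or.inr (show m ≤ j + m by omega))) (by omega)) ?_
        simp only
        rw [if_pos (by omega), if_neg (by omega)]
        have : z ^ (j + m) * z = 1 := by
          rw [← pow_succ, show j + m + 1 = m + m by omega, pow_add, hz]; ring
        linear_combination (1 + 2 * β) * this
  rw [Fintype.card_fin] at s1 s2 s3
  refine (((s1.congr fun a => ?_).trans ((s2.congr fun a => ?_).trans s3)).mono
    (le_of_eq (by ring))).congr fun a => ?_
  · split_ifs <;> ring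
  · split_ifs <;> first | ring1 | omega
  · rw [← e]
    split_ifs with c1 c2 c2
    · obtain c : (a : ℕ) = 0 := by omega
      simp [c]
    · ring
    · ring
    · omega

theorem four_case {r : ℕ} (hr : 2 ≤ r) (hz : z ^ (2 * r) = -1) (h1 : z - 1 ≠ 0) :
    ∃ α, α * (z - 1) ^ 2 = (z + 1) ^ 2 ∧ Rch (6 * (2 * (2 * r)) ^ 5)
      (fun a : Fin (2 * (2 * r)) => z ^ (a : ℕ) - 1) fun a => α * (z ^ (a : ℕ) - 1) := by
  have key : ∀ y : ℂ, Sm (UU z) 1 y → y ^ (2 * r) = -1 →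
      ∃ β, Sm (UU z) ((2 * (2 * r)) ^ 2) β ∧ β * (y - 1) ^ 2 = 2 * y := fun y hy e => by
    refine ⟨_, ((hy.prod (U_geom hy r)).prod (U_geom hy (3 * r))).mono (by nlinarith), ?_⟩
    have a := geom_sum_mul y r
    have b := geom_sum_mul y (3 * r)
    linear_combination y * (∑ i ∈ range (3 * r), y ^ i) * (y - 1) * a + y * (y ^ r - 1) * b
      + y * (y ^ (2 * r) - y ^ r - 1) * e
  have z1 : Sm (UU z) 1 z := by simpa using U_pow (z := z) 1
  obtain ⟨β, b1, b2⟩ := key z z1 hz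
  obtain ⟨γ, c1, c2⟩ := key (-z) z1.neg (by rw [pow_mul, neg_sq, ← pow_mul, hz])
  have ha : (1 + 2 * β) * (z - 1) ^ 2 = (z + 1) ^ 2 := by linear_combination 2 * b2
  refine ⟨1 + 2 * β, ha, (even_case (by omega) hz b1 c1.neg ?_ ?_).mono (le_of_eq (by ring))⟩
  · apply mul_right_cancel₀ (pow_ne_zero 2 h1)
    linear_combination b2 + γ * ha + c2
  · obtain ⟨n, hn⟩ : ∃ n, 2 * r = n + 2 := ⟨2 * r - 2, by omega⟩
    have a1 : n + (n + 2) < 2 * (2 * r) := by omega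
    have a2 : n + 1 + (n + 2) < 2 * (2 * r) := by omega
    have a0 : 0 < 2 * (2 * r) := by omega
    have a3 : n + 1 < 2 * (2 * r) := by omega
    have a4 : n < 2 * (2 * r) := by omega
    refine Sm.cast (Sm.mono (Sm.plus (Sm.plus (Sm.minus
      (Sm.dd _ ⟨_, a1⟩ ⟨0, a0⟩ (show _ ≠ 2 * r by simp only; omega) (show 0 ≠ 2 * r by omega))
      (Sm.nat (Sm.dd _ ⟨_, a2⟩ ⟨0, a0⟩ (show _ ≠ 2 * r by simp only; omega)
        (show 0 ≠ 2 * r by omega)) 2))
      (Sm.dd _ ⟨_, a3⟩ ⟨0, a0⟩ (show _ ≠ 2 * r by simp only; omega) (show 0 ≠ 2 * r by omega)))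
      (Sm.dd _ ⟨_, a4⟩ ⟨0, a0⟩ (show _ ≠ 2 * r by simp only; omega) (show 0 ≠ 2 * r by omega)))
      (by omega)) ?_
    simp only
    rw [if_neg (by omega), if_pos (by omega), if_neg (by omega), if_pos (by omega),
      if_pos (by omega), show 2 * r - 1 = n + 1 by omega, pow_add _ n (n + 2),
      pow_add _ (n + 1) (n + 2), ← hn, hz]
    rw [hn] at hz
    push_cast
    linear_combination (-(1 + 2 * β)) * hz + z ^ n * ha + 2 * hz

theorem inv_odd {h : ℕ} {y : ℂ} (hy : Sm (UU z) 1 y) (e : y ^ (2 * h + 1) = 1) (h1 : y - 1 ≠ 0) :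
    ∃ I, Sm (UU z) h I ∧ (1 + y) * I = 1 := by
  refine ⟨_, ((hy.prod (U_geom (hy.prod hy) h)).neg.mono (by omega)), ?_⟩
  apply mul_right_cancel₀ h1
  have a := geom_sum_mul (y * y) h
  rw [← pow_two, ← pow_mul] at a
  rw [← pow_two]
  linear_combination (-y) * a - e

theorem two_case {h : ℕ} (hz : z ^ (2 * h + 1) = -1) (h1 : z ^ 4 - 1 ≠ 0) :
    ∃ α, α * ((z ^ 2) ^ 2 + 1) = (z ^ 2 + 1) ^ 2 ∧ Rch (6 * (2 * (2 * h + 1)) ^ 5)
      (fun a : Fin (2 * (2 * h + 1)) => z ^ (a : ℕ) - 1) fun a => α * (z ^ (a : ℕ) - 1) := by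
  have h2 : z ^ 2 - 1 ≠ 0 := fun e => h1 (by linear_combination (z ^ 2 + 1) * e)
  have h3 : z + 1 ≠ 0 := fun e => h2 (by linear_combination (z - 1) * e)
  have p2 : (z ^ 2) ^ (2 * h + 1) = 1 := by rw [← pow_mul, mul_comm, pow_mul, hz]; ring
  obtain ⟨I, a1, a2⟩ := inv_odd (U_pow (z := z) 2) p2 h2
  obtain ⟨J, b1, b2⟩ := inv_odd (h := h) (U_pow (z := z) 4)
    (by rw [show z ^ 4 = (z ^ 2) ^ 2 by ring, ← pow_mul, mul_comm, pow_mul, p2, one_pow]) h1
  have ha : (1 + 2 * (z ^ 2 * J)) * ((z ^ 2) ^ 2 + 1) = (z ^ 2 + 1) ^ 2 := by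
    linear_combination 2 * z ^ 2 * b2
  have h4 : 1 + z ^ 4 ≠ 0 := fun e => by rw [e] at b2; simp at b2
  refine ⟨_, ha, (even_case (K := (2 * (2 * h + 1)) ^ 2) (γ := z ^ 2 * I * I) (by omega) hz
    (((U_pow 2).prod b1).mono (by nlinarith)) ((((U_pow 2).prod a1).prod a1).mono (by nlinarith))
    ?_ ?_).mono (le_of_eq (by ring))⟩
  · apply mul_right_cancel₀ h4
    linear_combination z ^ 2 * b2 - z ^ 2 * I * I * ha - z ^ 2 * ((1 + z ^ 2) * I + 1) * a2
  · have : ∀ i < 2 * h, Sm (DD (fun a : Fin (2 * (2 * h + 1)) => if (a : ℕ) ≤ 2 * h + 1 then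
        z ^ (a : ℕ) - 1 else (1 + 2 * (z ^ 2 * J)) * (z ^ (a : ℕ) - 1)) {b | (b : ℕ) ≠ 2 * h + 1})
        1 ((-z) ^ i * (z - 1)) := fun i hi => by
      have d := Sm.dd (fun a : Fin (2 * (2 * h + 1)) => if (a : ℕ) ≤ 2 * h + 1 then
        z ^ (a : ℕ) - 1 else (1 + 2 * (z ^ 2 * J)) * (z ^ (a : ℕ) - 1))
        (J := {b | (b : ℕ) ≠ 2 * h + 1}) ⟨i + 1, by omega⟩ ⟨i, by omega⟩
        (show i + 1 ≠ _ by omega) (show i ≠ _ by omega)
      simp only at d
      rw [if_pos (by omega), if_pos (by omega)] at d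
      rcases neg_one_pow_eq_or ℂ i with e | e
      · exact d.cast (by rw [neg_pow, e]; ring)
      · exact d.neg.cast (by rw [neg_pow, e]; ring)
    refine ((Sm.sum _ _ this).neg.mono (by omega)).cast ?_
    rw [← sum_mul, Nat.add_sub_cancel]
    apply mul_right_cancel₀ h3
    have a := geom_sum_mul (-z) (2 * h)
    rw [pow_mul, neg_sq, ← pow_mul] at a
    linear_combination (z - 1) * hz - (z - 1) * a

end Pool.Agent.H.MP_e50cbd_co
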