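import Mathlib
import Pool.Agent.H.MP_e50cbd_co.C

set_option autoImplicit false

namespace Pool.Agent.H.MP_e50cbd_co

open Complex

theorem big {y α : ℂ} {t : ℝ} (hy : ‖y‖ = 1) (h0 : 0 < y.re) (ht : -2 ≤ t) (ht' : t ≤ 0)
    (h : α * (y ^ 2 + t * y + 1) = (y + 1) ^ 2) : 1 < ‖α‖ := by
  have e : y * (starRingEnd ℂ) y = 1 := by rw [mul_conj, normSq_eq_norm_sq, hy]; simp
  have e2 := add_conj y
  have y0 : y ≠ 0 := fun h => by simp [h] at hy
  have h2 : α * ((2 * y.re + t : ℝ) : ℂ) = ((2 * y.re + 2 : ℝ) : ℂ) := by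
    apply mul_left_cancel₀ y0
    push_cast at e2 ⊢
    linear_combination h + (α - 1) * e - (α - 1) * y * e2
  have h3 := congrArg norm h2
  rw [norm_mul, norm_real, norm_real, Real.norm_eq_abs, Real.norm_eq_abs,
    abs_of_pos (by linarith : 0 < 2 * y.re + 2)] at h3
  by_contra c
  have : |2 * y.re + t| < 2 * y.re + 2 := abs_lt.2 ⟨by linarith, by linarith⟩
  nlinarith [abs_nonneg (2 * y.re + t), not_lt.1 c]

theorem re_pos {N j : ℕ} (h : 4 * j < N) : 0 < (exp (2 * Real.pi * I / N) ^ j).re := by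
  rw [← exp_nat_mul, show j * (2 * Real.pi * I / N : ℂ) = ((2 * Real.pi * j / N : ℝ) : ℂ) * I by
    push_cast; ring, exp_ofReal_mul_I_re]
  have hN : (0 : ℝ) < N := by exact_mod_cast (by omega : 0 < N)
  have h' : (4 * j : ℝ) < N := by exact_mod_cast h
  have := Real.pi_pos
  refine Real.cos_pos_of_mem_Ioo ⟨lt_of_lt_of_le (b := 0) (by linarith) (by positivity), ?_⟩
  rw [div_lt_iff₀ hN]; nlinarith

theorem main {N : ℕ} (hN : N = 5 ∨ 7 ≤ N) : ∃ α : ℂ, 1 < ‖α‖ ∧ Rch (100 * N ^ 5)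
    (fun a : Fin N => exp (2 * Real.pi * I / N) ^ (a : ℕ) - 1)
    fun a => α * (exp (2 * Real.pi * I / N) ^ (a : ℕ) - 1) := by
  have hp := isPrimitiveRoot_exp N (by omega)
  have r1 := re_pos (N := N) (j := 1) (by omega)
  have r2 := fun h => re_pos (N := N) (j := 2) h
  generalize exp (2 * Real.pi * I / N) = z at *
  have n1 : ‖z‖ = 1 := hp.norm'_eq_one (by omega)
  have h4 : z ^ 4 - 1 ≠ 0 := sub_ne_zero.2 (hp.pow_ne_one_of_pos_of_lt (by omega) (by omega))
  have hm : ∀ m, N = 2 * m → z ^ m = -1 := fun m e => by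
    have a := hp.pow_eq_one
    have b := hp.pow_ne_one_of_pos_of_lt (l := m) (by omega) (by omega)
    rw [e, mul_comm, pow_mul, sq_eq_one_iff] at a
    tauto
  rw [pow_one] at r1
  obtain ⟨h, rfl | rfl⟩ := Nat.even_or_odd' N
  · obtain ⟨r, rfl | rfl⟩ := Nat.even_or_odd' h
    · obtain ⟨α, h1, h2⟩ := four_case (r := r) (by omega) (hm _ rfl)
        (fun e => h4 (by linear_combination (z + 1) * (z ^ 2 + 1) * e))
      exact ⟨α, big (t := -2) n1 r1 le_rfl (by norm_num) (by push_cast; linear_combination h1),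
        h2.mono (by omega)⟩
    · obtain ⟨α, h1, h2⟩ := two_case (h := r) (hm _ rfl) h4
      exact ⟨α, big (t := 0) (by rw [norm_pow, n1, one_pow]) (r2 (by omega)) (by norm_num) le_rfl
        (by push_cast; linear_combination h1), h2.mono (by omega)⟩
  · have h3 : z ^ 2 + 1 ≠ 0 := fun e => h4 (by linear_combination (z ^ 2 - 1) * e)
    have := (odd_case (h := h) (by omega) hp.pow_eq_one
      (fun e => h4 (by linear_combination (z ^ 2 + 1) * e)) h3).map 0 (z ^ 2 + 1)⁻¹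
    refine ⟨(z + 1) ^ 2 / (z ^ 2 + 1), big (t := 0) n1 r1 (by norm_num) le_rfl
      (by push_cast; field_simp; ring), ?_⟩
    convert this.mono (Nat.mul_le_mul_left _ (Nat.pow_le_pow_right (by omega) (by omega : 4 ≤ 5)))
      using 2 <;> field_simp <;> ring

variable {ι : Type} [DecidableEq ι]

theorem Rch.perm {k : ℕ} {p q : ι → ℂ} (h : Rch k p q) (σ : Equiv.Perm ι) :
    Rch k (p ∘ σ) (q ∘ σ) := by
  induction h with
  | refl => exact .refl _ _
  | @step k p q i j hij _ ih =>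
    refine .step (σ.symm i) (σ.symm j) (σ.symm.injective.ne hij) ?_
    rw [Function.update_comp_equiv] at ih
    simpa using ih

theorem Rch.seq {k : ℕ} {p q : ι → ℂ} (h : Rch k p q) : ∃ l ≤ k, ∃ s : ℕ → ι → ℂ, s 0 = p ∧
    (∀ t < l, ∃ i j, i ≠ j ∧ s (t + 1) = Function.update (s t) i (2 * s t j - s t i)) ∧
    s l = q := by
  induction h with
  | refl k p => exact ⟨0, by omega, fun _ => p, rfl, fun _ h => by omega, rfl⟩
  | @step k p q i j hij _ ih =>
    obtain ⟨l, hl, s, h0, h1, h2⟩ := ih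
    refine ⟨l + 1, by omega, fun t => Nat.casesOn t p s, rfl, fun t ht => ?_, h2⟩
    rcases t with _ | t
    · exact ⟨i, j, hij, h0⟩
    · exact h1 t (by omega)

theorem final {N : ℕ} (hN : N = 5 ∨ 7 ≤ N) (c w : ℂ) (hw : w ≠ 0) (p : Fin N → ℂ)
    (hp : Set.range p = Set.range fun j : Fin N => c + w * exp (2 * Real.pi * I * (j : ℕ) / N)) :
    ∃ q, Rch (100 * N ^ 5) p q ∧ ∃ c' w' : ℂ, ‖w‖ < ‖w'‖ ∧
      Set.range q = Set.range fun j : Fin N => c' + w' * exp (2 * Real.pi * I * (j : ℕ) / N) := by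
  obtain ⟨α, h1, h2⟩ := main hN
  have hz := isPrimitiveRoot_exp N (by omega)
  have e : ∀ j : ℕ, exp (2 * Real.pi * I * j / N) = exp (2 * Real.pi * I / N) ^ j := fun j => by
    rw [← exp_nat_mul]; congr 1; ring
  simp only [e] at hp ⊢
  generalize exp (2 * Real.pi * I / N) = z at *
  choose f hf using fun i => (hp ▸ Set.mem_range_self i : p i ∈ Set.range _)
  have hs : Function.Surjective f := fun j => by
    obtain ⟨i, hi⟩ := (hp ▸ Set.mem_range_self j : c + w * z ^ (j : ℕ) ∈ Set.range p)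
    refine ⟨i, Fin.ext (hz.pow_inj (f i).2 j.2 (mul_left_cancel₀ hw (add_left_cancel (a := c) ?_)))⟩
    exact (hf i).trans hi
  have := (h2.map (c + w) w).perm (Equiv.ofBijective f hs.bijective_of_finite)
  refine ⟨_, (this.symm.congr fun i => ?_).symm, c + w - w * α, w * α, ?_, ?_⟩
  · rw [← hf i]; simp; ring
  · rw [norm_mul]
    exact lt_mul_of_one_lt_right (norm_pos_iff.2 hw) h1
  · rw [EquivLike.range_comp]
    congr 1
    funext j; ring

end Pool.Agent.H.MP_e50cbd_co
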